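import Pool.Agent.T6.H52.WC.Core

/-!
# MP_7a4764_an: the weighted substitution operators `f ↦ h · f(g)`

Among the operators `T f = h · (f ∘ g)` the ones which map the real-rooted polynomials with
nonnegative coefficients to real-rooted polynomials are determined.
-/

set_option autoImplicit false

namespace Pool.Agent.Results.MP_7a4764_an.WeightedSubstitutions

open Polynomial

/-- The zero polynomial, or all complex zeros are real. -/
def RealRooted (f : ℝ[X]) : Prop := f = 0 ∨ ∀ z : ℂ, aeval z f = 0 → z.im = 0

/-- Real-rooted with nonnegative coefficients. -/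
def PNonneg (f : ℝ[X]) : Prop := RealRooted f ∧ ∀ n, 0 ≤ f.coeff n

lemma real_nonpos {f : ℝ[X]} (hf : PNonneg f) (h0 : f ≠ 0) (w : ℂ) (hw : aeval w f = 0) :
    w.im = 0 ∧ w.re ≤ 0 := by
  have him : w.im = 0 := by
    rcases hf.1 with h | h
    · exact absurd h h0
    · exact h w hw
  refine ⟨him, ?_⟩
  by_contra hpos
  push Not at hpos
  have h3 : w = (w.re : ℂ) := by
    apply Complex.ext <;> simp [him]
  rw [h3] at hw
  have h5 : aeval ((algebraMap ℝ ℂ) w.re) f = algebraMap ℝ ℂ (aeval w.re f) :=
    aeval_algebraMap_apply ℂ w.re f
  have h6 : aeval w.re f = 0 := (algebraMap ℝ ℂ).injective (by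
    rw [← h5, map_zero]
    exact hw)
  rw [coe_aeval_eq_eval, eval_eq_sum_range] at h6
  have h7 : 0 < ∑ i ∈ Finset.range (f.natDegree + 1), f.coeff i * w.re ^ i := by
    refine Finset.sum_pos' (fun i _ => mul_nonneg (hf.2 i) (by positivity)) ?_
    refine ⟨f.natDegree, by simp, ?_⟩
    have h8 : f.coeff f.natDegree ≠ 0 := by
      change f.leadingCoeff ≠ 0
      exact leadingCoeff_ne_zero.2 h0
    have h9 : 0 < f.coeff f.natDegree := lt_of_le_of_ne (hf.2 _) h8.symm
    positivity
  linarith

theorem result (h g : ℝ[X]) (hh : h ≠ 0) :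
    (∀ f : ℝ[X], PNonneg f → RealRooted (h * f.comp g)) ↔
      RealRooted h ∧ (g.natDegree ≤ 1 ∨
        ∃ a b c : ℝ, 0 < a ∧ 0 ≤ c ∧ g = C c - C a * (X - C b) ^ 2) := by
  constructor
  · intro H
    have hone : RealRooted h := by
      have := H 1 ⟨Or.inr (fun z hz => by simp at hz), fun n => by
        rw [coeff_one]; split_ifs <;> norm_num⟩
      simpa using this
    refine ⟨hone, ?_⟩
    by_contra hcon
    push Not at hcon
    obtain ⟨hdeg, hno⟩ := hcon
    have key : ∀ r : ℝ, 0 ≤ r → ∀ z : ℂ, aeval z (g + C r) = 0 → z.im = 0 := by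
      intro r hr z hz
      have hX : PNonneg (X + C r) := by
        refine ⟨Or.inr fun w hw => ?_, fun n => ?_⟩
        · have : w = -(r : ℂ) := by
            have h1 : w + (r : ℂ) = 0 := by simpa using hw
            linear_combination h1
          rw [this]
          simp
        · rw [coeff_add, coeff_X, coeff_C]
          have t1 : (0 : ℝ) ≤ (if 1 = n then 1 else 0) := by split_ifs <;> norm_num
          have t2 : (0 : ℝ) ≤ (if n = 0 then r else 0) := by
            split_ifs
            · exact hr
            · exact le_refl _
          exact add_nonneg t1 t2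
      have h1 := H _ hX
      have h2 : (X + C r : ℝ[X]).comp g = g + C r := by simp
      rw [h2] at h1
      have hg : g + C r ≠ 0 := by
        intro h0
        have := natDegree_add_C (p := g) (a := r)
        rw [h0, natDegree_zero] at this
        omega
      rcases h1 with h1 | h1
      · exact absurd h1 (mul_ne_zero hh hg)
      · exact h1 z (by rw [map_mul, hz, mul_zero])
    by_cases h2 : g.natDegree = 2
    · obtain ⟨a, b, c, ha, hc, hg⟩ := H52.WC.two g h2 key
      exact hno a b c ha hc hg
    · exact H52.WC.no_three g (by omega) key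
  · rintro ⟨hr, hg⟩ f hf
    by_cases h0 : h * f.comp g = 0
    · exact Or.inl h0
    right
    intro z hz
    have hf0 : f ≠ 0 := by
      rintro rfl
      simp at h0
    rw [map_mul, mul_eq_zero] at hz
    rcases hz with hz | hz
    · rcases hr with h1 | h1
      · exact absurd h1 hh
      · exact h1 z hz
    · rw [aeval_comp] at hz
      obtain ⟨k1, k2⟩ := real_nonpos hf hf0 _ hz
      rcases hg with hg | ⟨a, b, c, ha, hc, rfl⟩
      · obtain ⟨p, q, hpq⟩ := exists_eq_X_add_C_of_natDegree_le_one hg
        have hp : p ≠ 0 := by
          rintro rfl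
          apply h0
          have hgq : g = C q := by rw [hpq]; simp
          have h4 : (aeval z g : ℂ) = (q : ℂ) := by rw [hgq]; simp
          rw [h4] at hz
          have h5 : aeval ((algebraMap ℝ ℂ) q) f = algebraMap ℝ ℂ (aeval q f) :=
            aeval_algebraMap_apply ℂ q f
          have h6 : aeval q f = 0 := (algebraMap ℝ ℂ).injective (by
            rw [← h5, map_zero]
            exact hz)
          rw [coe_aeval_eq_eval] at h6
          rw [hgq, comp_C, h6, C_0, mul_zero]
        have h4 : (aeval z g : ℂ) = (p : ℂ) * z + (q : ℂ) := by rw [hpq]; simp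
        rw [h4] at k1
        simp only [Complex.add_im, Complex.mul_im, Complex.ofReal_re, Complex.ofReal_im,
          zero_mul, add_zero] at k1
        rcases mul_eq_zero.1 k1 with k | k
        · exact absurd k hp
        · exact k
      · have h4 : (aeval z (C c - C a * (X - C b) ^ 2 : ℝ[X]) : ℂ) =
            (c : ℂ) - (a : ℂ) * (z - (b : ℂ)) ^ 2 := by simp
        rw [h4] at k1 k2
        have e1 : ((c : ℂ) - (a : ℂ) * (z - (b : ℂ)) ^ 2).im = -(a * (2 * (z.re - b) * z.im)) := by
          rw [pow_two]
          simp only [Complex.sub_im, Complex.mul_im, Complex.mul_re, Complex.sub_re,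
            Complex.ofReal_re, Complex.ofReal_im]
          ring
        have e2 : ((c : ℂ) - (a : ℂ) * (z - (b : ℂ)) ^ 2).re =
            c - a * ((z.re - b) ^ 2 - z.im ^ 2) := by
          rw [pow_two]
          simp only [Complex.sub_im, Complex.mul_im, Complex.mul_re, Complex.sub_re,
            Complex.ofReal_re, Complex.ofReal_im]
          ring
        rw [e1] at k1
        rw [e2] at k2
        have k3 : (z.re - b) * z.im = 0 := by
          have : a * ((z.re - b) * z.im) = 0 := by linarith
          rcases mul_eq_zero.1 this with k | k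
          · exact absurd k ha.ne'
          · exact k
        rcases mul_eq_zero.1 k3 with k | k
        · rw [k] at k2
          have : a * z.im ^ 2 ≤ 0 := by nlinarith
          have h5 : z.im ^ 2 ≤ 0 := by
            by_contra hc'
            push Not at hc'
            have := mul_pos ha hc'
            linarith
          have h6 : z.im ^ 2 = 0 := le_antisymm h5 (sq_nonneg _)
          exact pow_eq_zero_iff (two_ne_zero) |>.1 h6
        · exact k

end Pool.Agent.Results.MP_7a4764_an.WeightedSubstitutions
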